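import Mathlib
import Pool.Agent.X50.MM.Def
import Pool.Agent.X50.MM.Med

/-!
# A monolith that is not a convex subgraph of a product of complete and finite Coxeter graphs

There is a mediangle graph on 32 vertices (the chamber graph of the simplicial arrangement of seven
planes `x = 0`, `y = 0`, `z = 0`, `x + y + z = 0`, `x + y = z`, `x - y + z = 0`, `-x + y + z = 0`)
which is a monolith of itself and is not isomorphic to a convex subgraph of any Cartesian product of
complete graphs and finite Coxeter graphs.
-/

namespace Pool.Agent.Results.MP_b747c0_co.ExoticMonolith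

open Pool.Agent.X50.MM

universe u v

theorem result : ∃ X : SimpleGraph (Fin 32), Mediangle X ∧ ∃ Y : Set (Fin 32), Monolith X Y ∧
    ∀ (ι : Type u) (V : ι → Type v) (G : ∀ i, SimpleGraph (V i)), (∀ i, Factor (G i)) →
      ∀ S : Set (∀ i, V i), IsConvex (cart G) S →
        IsEmpty (X.induce Y ≃g (cart G).induce S) :=
  ⟨X7, X7_med, Set.univ, X7_mono, fun _ _ G hG S hS => X7_not G hG S hS⟩

end Pool.Agent.Results.MP_b747c0_co.ExoticMonolith
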